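import Pool.Agent.TH377.Dyn.Dens

/-!
# Several polynomials irreducible at one prime
-/

set_option autoImplicit false
set_option maxHeartbeats 400000

namespace Pool.Agent.TH377.Hyp

open Polynomial NumberField IsDedekindDomain Pool.Agent.TH120.Sec Pool.Agent.TH377.Sup
  Pool.Agent.TH377.Dyn

universe u

/-- the blocks of a vector -/
def blk {R : Type u} {k d : ℕ} (x : Fin (k * (d + 1) + 1) → R) (j : Fin k) (i : Fin (d + 1)) : R :=
  x (finProdFinEquiv (j, i)).succ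

/-- head and blocks -/
def split (R : Type u) (k d : ℕ) :
    (Fin (k * (d + 1) + 1) → R) ≃ R × (Fin k → Fin (d + 1) → R) where
  toFun x := (x 0, fun j i => blk x j i)
  invFun y := Fin.cons y.1 fun n => y.2 (finProdFinEquiv.symm n).1 (finProdFinEquiv.symm n).2
  left_inv x := by
    funext n
    refine Fin.cases ?_ (fun n => ?_) n
    · rfl
    · change x (finProdFinEquiv ((finProdFinEquiv.symm n).1, (finProdFinEquiv.symm n).2)).succ = _
      rw [Prod.mk.eta, Equiv.apply_symm_apply]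
  right_inv y := by
    refine Prod.ext rfl ?_
    funext j i
    change y.2 (finProdFinEquiv.symm (finProdFinEquiv (j, i))).1
      (finProdFinEquiv.symm (finProdFinEquiv (j, i))).2 = _
    rw [Equiv.symm_apply_apply]

variable {K : Type u} [Field K] [NumberField K] (v : HeightOneSpectrum (𝓞 K))

/-- the lifts of the irreducible polynomials -/
def Lift (d : ℕ) : Set (Fin (d + 1) → 𝓞 K ⧸ v.asIdeal ^ 2) :=
  {y | pr v (y (Fin.last d)) ≠ 0 ∧ Irreducible (pol fun i : Fin (d + 1) => pr v (y i))}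

/-- the good vectors -/
def GoodM (k d : ℕ) : Set (Fin (k * (d + 1) + 1) → 𝓞 K ⧸ v.asIdeal ^ 2) :=
  {x | (pr v (x 0) = 0 ∧ x 0 ≠ 0) ∧ ∀ j, (fun i => blk x j i) ∈ Lift v d}

lemma lift_card (d : ℕ) (hd : 2 ≤ d) :
    (Ideal.absNorm v.asIdeal - 1) * Ideal.absNorm v.asIdeal ^ (2 * d + 1) ≤
      2 * d * (Lift v d).ncard := by
  classical
  have hfin := finite_sq v
  have hmax : v.asIdeal.IsMaximal := v.isMaximal
  have hfin' : Finite (𝓞 K ⧸ v.asIdeal) := Ideal.finiteQuotientOfFreeOfNeBot _ v.ne_bot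
  let _ : Field (𝓞 K ⧸ v.asIdeal) := Ideal.Quotient.field _
  set N := Ideal.absNorm v.asIdeal with hN
  have hq := irr_card2 (𝓞 K ⧸ v.asIdeal) d hd
  rw [card_residue, ← hN] at hq
  set J : Set (𝓞 K ⧸ v.asIdeal ^ 2) := {x | pr v x = 0} with hJ
  have hJc : J.ncard = N := ker_ncard v
  have hJp : (Set.pi Set.univ fun _ : Fin (d + 1) => J).ncard = N ^ (d + 1) := by
    rw [← Nat.card_coe_set_eq, Nat.card_congr (Equiv.Set.univPi _), Nat.card_pi]
    simp only [Nat.card_coe_set_eq, hJc, Finset.prod_const, Finset.card_univ, Fintype.card_fin]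
  let s := Function.surjInv (pr_surj v)
  have hs : ∀ x, pr v (s x) = x := Function.surjInv_eq (pr_surj v)
  have h1 : ((Irr (𝓞 K ⧸ v.asIdeal) d) ×ˢ
      (Set.pi Set.univ fun _ : Fin (d + 1) => J)).ncard ≤ (Lift v d).ncard := by
    refine Set.ncard_le_ncard_of_injOn
      (fun x => fun i => s (x.1 i) + x.2 i) ?_ ?_ (Set.toFinite _)
    · rintro ⟨c, t⟩ ⟨hc, ht⟩
      have e1 : ∀ i, pr v (s (c i) + t i) = c i := by
        intro i
        rw [map_add, hs, show pr v (t i) = 0 from ht i (Set.mem_univ i), add_zero]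
      refine ⟨?_, ?_⟩
      · change pr v (s (c (Fin.last d)) + t (Fin.last d)) ≠ 0
        rw [e1]
        exact hc.1
      · change Irreducible (pol fun i : Fin (d + 1) => pr v (s (c i) + t i))
        simp only [e1]
        exact hc.2
    · rintro ⟨c, t⟩ ⟨hc, ht⟩ ⟨c', t'⟩ ⟨hc', ht'⟩ h
      have h1 : ∀ i : Fin (d + 1), s (c i) + t i = s (c' i) + t' i := fun i => congrFun h i
      have e1 : c = c' := by
        funext i
        have := congrArg (pr v) (h1 i)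
        rwa [map_add, map_add, hs, hs, show pr v (t i) = 0 from ht i (Set.mem_univ i),
          show pr v (t' i) = 0 from ht' i (Set.mem_univ i), add_zero, add_zero] at this
      subst e1
      have e2 : t = t' := by
        funext i
        have := h1 i
        rwa [add_right_inj] at this
      rw [e2]
  rw [Set.ncard_prod, hJp] at h1
  calc (N - 1) * N ^ (2 * d + 1) = ((N - 1) * N ^ d) * N ^ (d + 1) := by ring
    _ ≤ (2 * d * (Irr (𝓞 K ⧸ v.asIdeal) d).ncard) * N ^ (d + 1) := Nat.mul_le_mul_right _ hq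
    _ = 2 * d * ((Irr (𝓞 K ⧸ v.asIdeal) d).ncard * N ^ (d + 1)) := by ring
    _ ≤ 2 * d * (Lift v d).ncard := Nat.mul_le_mul_left _ h1

lemma norm_ge_two : 2 ≤ Ideal.absNorm v.asIdeal := by
  by_contra h
  have h3 : Ideal.absNorm v.asIdeal = 0 ∨ Ideal.absNorm v.asIdeal = 1 := by omega
  rcases h3 with h3 | h3
  · exact absurd h3 (Pool.Agent.W417.SecC.D2.norm_pos v).ne'
  · rw [Ideal.absNorm_eq_one_iff] at h3
    exact v.isPrime.ne_top h3

lemma goodM_card (k d : ℕ) (hd : 2 ≤ d) :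
    (Ideal.absNorm v.asIdeal - 1) * (Ideal.absNorm v.asIdeal ^ 2) ^ (k * (d + 1)) ≤
      (4 * d) ^ k * (GoodM v k d).ncard := by
  classical
  have hfin := finite_sq v
  set N := Ideal.absNorm v.asIdeal with hN
  have hN2 : 2 ≤ N := norm_ge_two v
  set J : Set (𝓞 K ⧸ v.asIdeal ^ 2) := {x | pr v x = 0} with hJ
  have hJc : J.ncard = N := ker_ncard v
  have hJ0 : (J \ {0}).ncard = N - 1 := by
    rw [Set.ncard_sdiff_singleton_of_mem (show (0 : 𝓞 K ⧸ v.asIdeal ^ 2) ∈ J from map_zero _), hJc]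
  have h1 : GoodM v k d = split (𝓞 K ⧸ v.asIdeal ^ 2) k d ⁻¹'
      ((J \ {0}) ×ˢ (Set.pi Set.univ fun _ : Fin k => Lift v d)) := by
    ext x
    constructor
    · rintro ⟨⟨h2, h3⟩, h4⟩
      exact ⟨⟨h2, h3⟩, fun j _ => h4 j⟩
    · rintro ⟨⟨h2, h3⟩, h4⟩
      exact ⟨⟨h2, h3⟩, fun j => h4 j (Set.mem_univ j)⟩
  have h2 : (GoodM v k d).ncard = (N - 1) * (Lift v d).ncard ^ k := by
    rw [h1, Set.ncard_preimage_of_injective_subset_range (split _ k d).injective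
      (by rw [(split _ k d).range_eq_univ]; exact Set.subset_univ _), Set.ncard_prod, hJ0]
    congr 1
    rw [← Nat.card_coe_set_eq, Nat.card_congr (Equiv.Set.univPi _), Nat.card_pi]
    simp only [Nat.card_coe_set_eq, Finset.prod_const, Finset.card_univ, Fintype.card_fin]
  have h3 : (N ^ 2) ^ (d + 1) ≤ 4 * d * (Lift v d).ncard := by
    have h4 := lift_card v d hd
    rw [← hN] at h4
    have h5 : N ≤ 2 * (N - 1) := by omega
    calc (N ^ 2) ^ (d + 1) = N * N ^ (2 * d + 1) := by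
          rw [← pow_mul, ← pow_succ']
          congr 1 <;> ring
      _ ≤ 2 * (N - 1) * N ^ (2 * d + 1) := Nat.mul_le_mul_right _ h5
      _ = 2 * ((N - 1) * N ^ (2 * d + 1)) := by ring
      _ ≤ 2 * (2 * d * (Lift v d).ncard) := Nat.mul_le_mul_left _ h4
      _ = 4 * d * (Lift v d).ncard := by ring
  rw [h2]
  calc (N - 1) * (N ^ 2) ^ (k * (d + 1)) = (N - 1) * ((N ^ 2) ^ (d + 1)) ^ k := by
        rw [← pow_mul, ← pow_mul, ← pow_mul]
        congr 2
        ring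
    _ ≤ (N - 1) * (4 * d * (Lift v d).ncard) ^ k :=
        Nat.mul_le_mul_left _ (Nat.pow_le_pow_left h3 _)
    _ = (4 * d) ^ k * ((N - 1) * (Lift v d).ncard ^ k) := by
        rw [mul_pow]
        ring

lemma badM_card (k d : ℕ) (hd : 2 ≤ d) :
    (((GoodM v k d)ᶜ).ncard : ℝ) ≤ (1 - (1 / (4 * d) ^ k) * (1 / (Ideal.absNorm v.asIdeal : ℝ) -
      1 / (Ideal.absNorm v.asIdeal : ℝ) ^ 2)) *
        ((Ideal.absNorm v.asIdeal : ℝ) ^ 2) ^ (k * (d + 1) + 1) := by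
  classical
  have hfin := finite_sq v
  have h1 := goodM_card v k d hd
  have h2 : (GoodM v k d).ncard + ((GoodM v k d)ᶜ).ncard =
      (Ideal.absNorm v.asIdeal ^ 2) ^ (k * (d + 1) + 1) := by
    rw [Set.ncard_add_ncard_compl, Nat.card_fun, Pool.Agent.W417.SecC.D2.card_sq, Nat.card_fin]
  have hN2 : 2 ≤ Ideal.absNorm v.asIdeal := norm_ge_two v
  set N := Ideal.absNorm v.asIdeal with hN
  have h3 : ((GoodM v k d).ncard : ℝ) + (((GoodM v k d)ᶜ).ncard : ℝ) =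
      ((N : ℝ) ^ 2) ^ (k * (d + 1) + 1) := by
    exact_mod_cast h2
  have h4 : ((N : ℝ) - 1) * ((N : ℝ) ^ 2) ^ (k * (d + 1)) ≤
      (4 * d) ^ k * ((GoodM v k d).ncard : ℝ) := by
    have h5 : ((N - 1 : ℕ) : ℝ) = (N : ℝ) - 1 := by
      rw [Nat.cast_sub (by omega)]
      norm_num
    rw [← h5]
    exact_mod_cast h1
  have hNr : (2 : ℝ) ≤ N := by exact_mod_cast hN2
  have hdr : (0 : ℝ) < (4 * d) ^ k := by
    have : (0 : ℝ) < d := by
      have : 0 < d := by omega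
      exact_mod_cast this
    positivity
  have hN0 : (N : ℝ) ≠ 0 := by linarith
  have h6 : (1 - (1 / (4 * (d : ℝ)) ^ k) * (1 / (N : ℝ) - 1 / (N : ℝ) ^ 2)) *
      ((N : ℝ) ^ 2) ^ (k * (d + 1) + 1) = ((N : ℝ) ^ 2) ^ (k * (d + 1) + 1) -
        (((N : ℝ) - 1) * ((N : ℝ) ^ 2) ^ (k * (d + 1))) / (4 * (d : ℝ)) ^ k := by
    have h7 : (1 / (N : ℝ) - 1 / (N : ℝ) ^ 2) * (N : ℝ) ^ 2 = N - 1 := by
      field_simp
    rw [pow_succ ((N : ℝ) ^ 2), sub_mul, one_mul]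
    congr 1
    calc 1 / (4 * (d : ℝ)) ^ k * (1 / (N : ℝ) - 1 / (N : ℝ) ^ 2) *
          (((N : ℝ) ^ 2) ^ (k * (d + 1)) * (N : ℝ) ^ 2)
        = 1 / (4 * (d : ℝ)) ^ k * (((1 / (N : ℝ) - 1 / (N : ℝ) ^ 2) * (N : ℝ) ^ 2) *
          ((N : ℝ) ^ 2) ^ (k * (d + 1))) := by ring
      _ = _ := by rw [h7]; ring
  rw [h6]
  have h7 : (((N : ℝ) - 1) * ((N : ℝ) ^ 2) ^ (k * (d + 1))) / (4 * (d : ℝ)) ^ k ≤
      ((GoodM v k d).ncard : ℝ) := by
    rw [div_le_iff₀ hdr]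
    linarith
  linarith

omit [NumberField K] in
lemma goodM_iff (k d : ℕ) (y : Fin (k * (d + 1) + 1) → 𝓞 K)
    (hy : red (v.asIdeal ^ 2) (k * (d + 1) + 1) y ∈ GoodM v k d) :
    y 0 ∈ v.asIdeal ∧ y 0 ∉ v.asIdeal ^ 2 ∧ ∀ j, IrrMod v d fun i => blk y j i := by
  obtain ⟨⟨h1, h2⟩, h3⟩ := hy
  refine ⟨?_, ?_, fun j => ?_⟩
  · exact Ideal.Quotient.eq_zero_iff_mem.1 h1
  · exact fun h => h2 (Ideal.Quotient.eq_zero_iff_mem.2 h)
  · exact ⟨fun h => (h3 j).1 (Ideal.Quotient.eq_zero_iff_mem.2 h), (h3 j).2⟩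

/-- almost all vectors are good at some prime -/
theorem dz_blocks (K : Type u) [Field K] [NumberField K] (k d : ℕ) (hd : 2 ≤ d) :
    DZ (k * (d + 1) + 1) {c : Fin (k * (d + 1) + 1) → 𝓞 K | ¬ ∃ v : HeightOneSpectrum (𝓞 K),
      c 0 ∈ v.asIdeal ∧ c 0 ∉ v.asIdeal ^ 2 ∧ ∀ j, IrrMod v d fun i => blk c j i} := by
  have hd2 : (2 : ℝ) ≤ d := by exact_mod_cast hd
  have hδ0 : (0 : ℝ) < 1 / (4 * d) ^ k := by positivity
  have hδ1 : (1 / (4 * d) ^ k : ℝ) ≤ 1 := by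
    rw [div_le_one (by positivity)]
    exact one_le_pow₀ (by linarith)
  refine dz_of_supply (k * (d + 1) + 1) (fun v => (1 : 𝓞 K) ∉ v.asIdeal)
    (fun v => (GoodM v k d)ᶜ) (1 / (4 * d) ^ k) ?_ (fun v _ => badM_card v k d hd) _ ?_
  · intro ε hε
    obtain ⟨T, hT, hTε⟩ := supply_split (K := K) 2 Nat.prime_two 1 one_ne_zero
      (1 / (4 * d) ^ k : ℝ) hδ0 hδ1 ε hε
    exact ⟨T, fun v hv => (hT v hv).1, hTε⟩
  · intro c hc v _ hgood
    exact hc ⟨v, goodM_iff v k d c hgood⟩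

end Pool.Agent.TH377.Hyp
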