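import Pool.Agent.TH377.Dyn.Loc

/-!
# Anisotropic perturbations of sums of binary forms
-/

set_option autoImplicit false
set_option maxHeartbeats 400000

namespace Pool.Agent.TH377.Hyp

open Polynomial Pool.Agent.TH377.Dyn

universe u v

variable {L : Type u} {Γ : Type v} [Field L] [LinearOrderedCommGroupWithZero Γ]
  (V : Valuation L Γ)

/-- a binary form -/
noncomputable def bin (F : L[X]) (d : ℕ) (x y : L) : L :=
  ∑ i : Fin (d + 1), F.coeff i * (x ^ (i : ℕ) * y ^ (d - i))

lemma bin_eq (F : L[X]) (d : ℕ) (hF : F.natDegree = d) (x y : L) (hy : y ≠ 0) :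
    bin F d x y = y ^ d * F.eval (x / y) := by
  rw [eval_eq_sum_range, hF, Finset.sum_range, Finset.mul_sum]
  refine Finset.sum_congr rfl fun i _ => ?_
  have h1 : y ^ d = y ^ (i : ℕ) * y ^ (d - i) := by
    rw [← pow_add]
    congr 1
    have := i.2
    omega
  rw [h1, div_pow]
  have hyi : y ^ (i : ℕ) ≠ 0 := pow_ne_zero _ hy
  field_simp

/-- the value of a binary form which is anisotropic over the residue field -/
lemma bin_val (F : L[X]) (d : ℕ) (hd : 1 ≤ d) (hF : ∀ i, V (F.coeff i) ≤ 1)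
    (hl : V F.leadingCoeff = 1) (hFd : F.natDegree = d)
    (hroot : ∀ y, V y ≤ 1 → 1 ≤ V (F.eval y)) (x y : L) :
    V (bin F d x y) = max (V x) (V y) ^ d := by
  by_cases h : V y < V x
  · rw [max_eq_left h.le]
    have hx0 : 0 < V x := zero_le.trans_lt h
    have hx1 : V x ≠ 0 := hx0.ne'
    have h0 : bin F d x y = (∑ i : Fin d, F.coeff i * (x ^ (i : ℕ) * y ^ (d - i))) +
        F.coeff d * x ^ d := by
      rw [bin, Fin.sum_univ_castSucc]
      simp
    have h1 : V (F.coeff d * x ^ d) = V x ^ d := by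
      rw [map_mul, map_pow]
      have h2 : V (F.coeff d) = 1 := by rw [← hFd]; exact hl
      rw [h2, one_mul]
    have h2 : V (∑ i : Fin d, F.coeff i * (x ^ (i : ℕ) * y ^ (d - i))) < V x ^ d := by
      refine Valuation.map_sum_lt V (pow_ne_zero _ hx1) fun i _ => ?_
      rw [map_mul, map_mul, map_pow, map_pow]
      have hi : (i : ℕ) < d := i.2
      have h3 : V y ^ (d - (i : ℕ)) < V x ^ (d - (i : ℕ)) :=
        pow_lt_pow_left₀ h zero_le (by omega)
      calc V (F.coeff i) * (V x ^ (i : ℕ) * V y ^ (d - (i : ℕ)))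
          ≤ 1 * (V x ^ (i : ℕ) * V y ^ (d - (i : ℕ))) := mul_le_mul_left (hF i) _
        _ = V x ^ (i : ℕ) * V y ^ (d - (i : ℕ)) := one_mul _
        _ < V x ^ (i : ℕ) * V x ^ (d - (i : ℕ)) :=
          mul_lt_mul_of_pos_left h3 (pow_pos hx0 _)
        _ = V x ^ d := by
          rw [← pow_add]
          congr 1
          omega
    rw [h0, Valuation.map_add_eq_of_lt_right V (by rw [h1]; exact h2), h1]
  · rw [not_lt] at h
    rw [max_eq_right h]
    by_cases hy : y = 0
    · have hx : x = 0 := by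
        rw [hy, map_zero] at h
        exact (Valuation.zero_iff V).1 (le_antisymm h zero_le)
      have h0 : bin F d x y = 0 := by
        refine Finset.sum_eq_zero fun i _ => ?_
        rw [hx, hy]
        by_cases hi : (i : ℕ) = 0
        · rw [hi]
          have : (0 : L) ^ (d - 0) = 0 := zero_pow (by omega)
          rw [this]
          simp
        · rw [zero_pow hi]
          simp
      rw [h0, hy, map_zero, zero_pow (by omega)]
    · have hy0 : V y ≠ 0 := (Valuation.ne_zero_iff V).2 hy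
      have hle : V (x / y) ≤ 1 := by
        rw [map_div₀]
        exact div_le_one_of_le₀ h zero_le
      have h1 : V (F.eval (x / y)) = 1 := by
        refine le_antisymm ?_ (hroot _ hle)
        rw [eval_eq_sum_range]
        refine Valuation.map_sum_le V fun i _ => ?_
        rw [map_mul, map_pow]
        exact mul_le_one₀ (hF i) zero_le (pow_le_one₀ zero_le hle)
      rw [bin_eq F d hFd x y hy, map_mul, map_pow, h1, mul_one]

/-- the weight of a monomial -/
def wt {k : ℕ} (α : Fin k × Fin 2 →₀ ℕ) : ℕ := ∑ p, (p.1 : ℕ) * α p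

lemma hom_sum {k d : ℕ} {G : MvPolynomial (Fin k × Fin 2) L} (hG : G.IsHomogeneous d)
    {α : Fin k × Fin 2 →₀ ℕ} (hα : α ∈ G.support) : ∑ p, α p = d := by
  have := hG (MvPolynomial.mem_support_iff.mp hα)
  rw [← this]
  have h3 := Finsupp.degree_eq_sum α
  rw [← h3, Finsupp.degree_eq_weight_one]
  rfl

/-- a perturbed sum of binary forms has no zeros -/
theorem no_zero (k d : ℕ) (hd : 1 ≤ d) (F : Fin k → L[X]) (hF : ∀ j i, V ((F j).coeff i) ≤ 1)
    (hl : ∀ j, V (F j).leadingCoeff = 1) (hFd : ∀ j, (F j).natDegree = d)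
    (hroot : ∀ j y, V y ≤ 1 → 1 ≤ V ((F j).eval y)) (b : L) (hb0 : b ≠ 0) (hb : V b < 1)
    (hpow : ∀ i, 0 < i → i < k → ∀ t : Γ, V b ^ i ≠ t ^ d)
    (G : MvPolynomial (Fin k × Fin 2) L) (hG : G.IsHomogeneous d)
    (hGc : ∀ α, V (G.coeff α) ≤ V b ^ (wt α / d + 1)) (x : Fin k × Fin 2 → L) (hx : x ≠ 0) :
    ∑ j : Fin k, b ^ (j : ℕ) * bin (F j) d (x (j, 0)) (x (j, 1)) + MvPolynomial.eval x G ≠ 0 := by
  classical
  have hVb : V b ≠ 0 := (Valuation.ne_zero_iff V).2 hb0
  have hVb0 : 0 < V b := zero_lt_iff.2 hVb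
  set m : Fin k → Γ := fun j => max (V (x (j, 0))) (V (x (j, 1))) with hm
  have hxm : ∀ p : Fin k × Fin 2, V (x p) ≤ m p.1 := by
    rintro ⟨j, i⟩
    fin_cases i
    · exact le_max_left _ _
    · exact le_max_right _ _
  obtain ⟨p, hp⟩ : ∃ p, x p ≠ 0 := Function.ne_iff.1 hx
  set T : Fin k → Γ := fun j => V b ^ (j : ℕ) * m j ^ d with hT
  obtain ⟨j0, -, hj0⟩ := Finset.exists_max_image Finset.univ T ⟨p.1, Finset.mem_univ _⟩
  set M := T j0 with hM
  have hTp : 0 < T p.1 := by
    have h1 : 0 < V (x p) := zero_lt_iff.2 ((Valuation.ne_zero_iff V).2 hp)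
    exact mul_pos (pow_pos hVb0 _) (pow_pos (h1.trans_le (hxm p)) _)
  have hM0 : 0 < M := hTp.trans_le (hj0 p.1 (Finset.mem_univ _))
  have hterm : ∀ j : Fin k, V (b ^ (j : ℕ) * bin (F j) d (x (j, 0)) (x (j, 1))) = T j := by
    intro j
    rw [map_mul, map_pow, bin_val V (F j) d hd (hF j) (hl j) (hFd j) (hroot j)]
  have hmne : ∀ j, T j = M → m j ≠ 0 := by
    intro j hj h0
    rw [hT] at hj
    simp only [h0, zero_pow (show d ≠ 0 by omega), mul_zero] at hj
    exact hM0.ne hj
  -- the largest term is unique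
  have huniq : ∀ j, j ≠ j0 → T j < M := by
    intro j hj
    refine lt_of_le_of_ne (hj0 j (Finset.mem_univ _)) fun heq => ?_
    have h1 := hmne j heq
    have h2 := hmne j0 rfl
    have h3 : V b ^ (j : ℕ) * m j ^ d = V b ^ (j0 : ℕ) * m j0 ^ d := heq
    rcases lt_or_gt_of_ne (fun h => hj (Fin.ext h) : (j : ℕ) ≠ j0) with h4 | h4
    · refine hpow (j0 - j) (by omega) (by have := j0.2; omega) (m j / m j0) ?_
      have h5 : V b ^ (j0 : ℕ) = V b ^ (j : ℕ) * V b ^ ((j0 : ℕ) - j) := by
        rw [← pow_add]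
        congr 1
        omega
      rw [h5, mul_assoc] at h3
      have h6 := mul_left_cancel₀ (pow_ne_zero _ hVb) h3
      rw [div_pow, h6, mul_div_assoc, div_self (pow_ne_zero _ h2), mul_one]
    · refine hpow (j - j0) (by omega) (by have := j.2; omega) (m j0 / m j) ?_
      have h5 : V b ^ (j : ℕ) = V b ^ (j0 : ℕ) * V b ^ ((j : ℕ) - j0) := by
        rw [← pow_add]
        congr 1
        omega
      rw [h5, mul_assoc] at h3
      have h6 := mul_left_cancel₀ (pow_ne_zero _ hVb) h3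
      rw [div_pow, ← h6, mul_div_assoc, div_self (pow_ne_zero _ h1), mul_one]
  have hrest : V (∑ j ∈ Finset.univ.erase j0,
      b ^ (j : ℕ) * bin (F j) d (x (j, 0)) (x (j, 1))) < M := by
    refine Valuation.map_sum_lt V hM0.ne' fun j hj => ?_
    rw [hterm]
    exact huniq j (Finset.ne_of_mem_erase hj)
  -- the perturbation
  have hGM : V (MvPolynomial.eval x G) < M := by
    rw [MvPolynomial.eval_eq']
    refine Valuation.map_sum_lt V hM0.ne' fun α hα => ?_
    rw [map_mul, map_prod]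
    set t := wt α / d + 1 with ht
    set P := ∏ p, m p.1 ^ α p with hP
    have h1 : V (G.coeff α) * ∏ p, V (x p ^ α p) ≤ V b ^ t * P := by
      refine mul_le_mul' (hGc α) (Finset.prod_le_prod' fun p _ => ?_)
      rw [map_pow]
      exact pow_le_pow_left₀ zero_le (hxm p) _
    refine h1.trans_lt ?_
    have hw : wt α < t * d := by
      rw [ht, mul_comm]
      exact Nat.lt_mul_div_succ _ (by omega)
    have h2 : V b ^ wt α * P ^ d = ∏ p, T p.1 ^ α p := by
      rw [hP, wt, ← Finset.prod_pow, ← Finset.prod_pow_eq_pow_sum, ← Finset.prod_mul_distrib]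
      refine Finset.prod_congr rfl fun p _ => ?_
      rw [hT]
      simp only
      rw [mul_pow, ← pow_mul, ← pow_mul, ← pow_mul, mul_comm (α p) d]
    have h3 : V b ^ wt α * P ^ d ≤ M ^ d := by
      rw [h2, ← hom_sum hG hα, ← Finset.prod_pow_eq_pow_sum]
      refine Finset.prod_le_prod' fun p _ => ?_
      exact pow_le_pow_left₀ zero_le (hj0 p.1 (Finset.mem_univ _)) _
    have h4 : (V b ^ t * P) ^ d = V b ^ (t * d - wt α) * (V b ^ wt α * P ^ d) := by
      rw [mul_pow, ← pow_mul, ← mul_assoc, ← pow_add]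
      congr 2
      omega
    refine lt_of_pow_lt_pow_left₀ d zero_le ?_
    rw [h4]
    calc V b ^ (t * d - wt α) * (V b ^ wt α * P ^ d) ≤ V b ^ (t * d - wt α) * M ^ d :=
          mul_le_mul_right h3 _
      _ < 1 * M ^ d := mul_lt_mul_of_pos_right (pow_lt_one₀ zero_le hb (by omega)) (pow_pos hM0 _)
      _ = M ^ d := one_mul _
  intro h0
  rw [← Finset.add_sum_erase _ _ (Finset.mem_univ j0), add_assoc] at h0
  have h1 : V ((∑ j ∈ Finset.univ.erase j0, b ^ (j : ℕ) * bin (F j) d (x (j, 0)) (x (j, 1))) +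
      MvPolynomial.eval x G) < V (b ^ (j0 : ℕ) * bin (F j0) d (x (j0, 0)) (x (j0, 1))) := by
    rw [hterm]
    exact (Valuation.map_add V _ _).trans_lt (max_lt hrest hGM)
  have h2 := Valuation.map_add_eq_of_lt_left V h1
  rw [h0, map_zero, hterm] at h2
  exact hM0.ne h2

end Pool.Agent.TH377.Hyp
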