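import Pool.Agent.TH377.Dyn.NF
import Pool.Agent.TH377.Hyp.Loc

/-!
# Places with small ramification and residue degree
-/

set_option autoImplicit false
set_option maxHeartbeats 400000

namespace Pool.Agent.TH377.Hyp

open Polynomial NumberField IsDedekindDomain Pool.Agent.TH377.Dyn

universe u v

/-- the numerical condition -/
def Small (k d n : ℕ) : Prop :=
  ∃ l : ℕ, l.Prime ∧ k * l ^ padicValNat l n ≤ l ^ padicValNat l d

/-- for two blocks -/
lemma small_two (d n : ℕ) (hd : 0 < d) (hn : 0 < n) : Small 2 d n ↔ ¬ d ∣ n := by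
  constructor
  · rintro ⟨l, hl, h⟩ hdn
    have hfact : Fact l.Prime := ⟨hl⟩
    have h1 : padicValNat l d ≤ padicValNat l n := by
      obtain ⟨m, rfl⟩ := hdn
      rw [padicValNat.mul hd.ne' (by rintro rfl; simp at hn)]
      exact Nat.le_add_right _ _
    have h2 := Nat.pow_le_pow_right hl.pos h1
    have h3 : 0 < l ^ padicValNat l n := pow_pos hl.pos _
    omega
  · intro h
    by_contra h1
    apply h
    rw [← Nat.factorization_prime_le_iff_dvd hd.ne' hn.ne']
    intro l hl
    by_contra h2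
    rw [not_le] at h2
    apply h1
    refine ⟨l, hl, ?_⟩
    rw [Nat.factorization_def _ hl, Nat.factorization_def _ hl] at h2
    calc 2 * l ^ padicValNat l n ≤ l * l ^ padicValNat l n := Nat.mul_le_mul_right _ hl.two_le
      _ = l ^ (padicValNat l n + 1) := (pow_succ' _ _).symm
      _ ≤ _ := Nat.pow_le_pow_right hl.pos h2

variable {K : Type u} {L : Type v} [Field K] [NumberField K] [Field L] [NumberField L]
  [Algebra K L]

/-- a good place -/
theorem exists_good_place (v : HeightOneSpectrum (𝓞 K)) (k d : ℕ) (hk : 2 ≤ k)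
    (h : Small k d (Module.finrank K L)) :
    ∃ q : v.asIdeal.primesOver (𝓞 L), ¬ d ∣ q.1.inertiaDeg (𝓞 K) ∧
      ∀ i, 0 < i → i < k → ¬ d ∣ i * q.1.ramificationIdx (𝓞 K) := by
  obtain ⟨l, hl, h⟩ := h
  have hfact : Fact l.Prime := ⟨hl⟩
  set n := Module.finrank K L with hn
  have hn0 : n ≠ 0 := by
    have : 0 < Module.finrank K L := Module.finrank_pos
    exact this.ne'
  set a := padicValNat l n with ha
  set s := padicValNat l d with hs
  have hlt : a < s := by
    by_contra h1
    rw [not_lt] at h1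
    have h2 := Nat.pow_le_pow_right hl.pos h1
    have h3 : 0 < l ^ a := pow_pos hl.pos _
    nlinarith
  have hds : l ^ s ∣ d := pow_padicValNat_dvd
  obtain ⟨q, hq⟩ : ∃ q : v.asIdeal.primesOver (𝓞 L),
      ¬ l ^ (a + 1) ∣ q.1.ramificationIdx (𝓞 K) * q.1.inertiaDeg (𝓞 K) := by
    by_contra h1
    rw [not_exists] at h1
    have h2 : l ^ (a + 1) ∣ n := by
      rw [hn, ← sum_ef L v]
      exact Finset.dvd_sum fun q _ => not_not.1 (h1 q)
    exact pow_succ_padicValNat_not_dvd hn0 h2
  refine ⟨q, ?_, ?_⟩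
  · intro h1
    apply hq
    exact ((pow_dvd_pow l hlt).trans (hds.trans h1)).trans (Dvd.intro_left _ rfl)
  · intro i hi hik h1
    set e := q.1.ramificationIdx (𝓞 K) with he
    have he0 : e ≠ 0 := by
      intro h0
      apply hq
      rw [h0, zero_mul]
      exact dvd_zero _
    have h2 : l ^ s ∣ i * e := hds.trans h1
    have h3 : s ≤ padicValNat l i + padicValNat l e := by
      rw [← padicValNat.mul hi.ne' he0]
      exact (padicValNat_dvd_iff_le (mul_ne_zero hi.ne' he0)).1 h2
    have h4 : padicValNat l e ≤ a := by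
      by_contra h5
      rw [not_le] at h5
      apply hq
      exact ((padicValNat_dvd_iff_le he0).2 h5).trans (Dvd.intro _ rfl)
    have h5 : l ^ (s - a) ≤ i := by
      refine Nat.le_of_dvd hi ?_
      refine (padicValNat_dvd_iff_le hi.ne').2 ?_
      omega
    have h6 : l ^ s = l ^ (s - a) * l ^ a := by
      rw [← pow_add]
      congr 1
      omega
    have h7 : 0 < l ^ a := pow_pos hl.pos _
    rw [h6] at h
    have h8 := Nat.le_of_mul_le_mul_right h h7
    omega

/-- the valuation of a uniformizer -/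
lemma val_unif (v : HeightOneSpectrum (𝓞 K)) (b : 𝓞 K) (h1 : b ∈ v.asIdeal)
    (h2 : b ∉ v.asIdeal ^ 2) : v.valuation K (algebraMap (𝓞 K) K b) = WithZero.exp (-1 : ℤ) := by
  have h3 : v.intValuation b ≤ WithZero.exp (-((1 : ℕ) : ℤ)) := by
    rw [v.intValuation_le_pow_iff_mem, pow_one]
    exact h1
  have h4 : ¬ v.intValuation b ≤ WithZero.exp (-((2 : ℕ) : ℤ)) := by
    rw [v.intValuation_le_pow_iff_mem]
    exact h2
  rw [v.valuation_of_algebraMap]
  have hb : b ≠ 0 := by
    rintro rfl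
    exact h2 (zero_mem _)
  rw [v.intValuation_eq_exp_neg_multiplicity hb] at h3 h4 ⊢
  rw [WithZero.exp_le_exp] at h3 h4
  congr 1
  push_cast at h3 h4
  omega

/-- powers of a uniformizer are not `d`-th powers in the value group -/
theorem pow_ne (v : HeightOneSpectrum (𝓞 K)) (q : v.asIdeal.primesOver (𝓞 L)) (b : 𝓞 K)
    (h1 : b ∈ v.asIdeal) (h2 : b ∉ v.asIdeal ^ 2) (d : ℕ) (hd : 0 < d) (i : ℕ)
    (h : ¬ d ∣ i * q.1.ramificationIdx (𝓞 K)) (t : WithZero (Multiplicative ℤ)) :
    (ovr v q).valuation L (algebraMap (𝓞 K) L b) ^ i ≠ t ^ d := by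
  intro heq
  apply h
  have hpm : v.asIdeal.IsMaximal := v.isMaximal
  have e1 : v.asIdeal.ramificationIdx' (ovr v q).asIdeal = q.1.ramificationIdx (𝓞 K) := by
    exact Ideal.ramificationIdx'_eq_ramificationIdx _ _ v.ne_bot
  have e2 := HeightOneSpectrum.valuation_liesOver L v (ovr v q) (algebraMap (𝓞 K) K b)
  rw [← IsScalarTower.algebraMap_apply (𝓞 K) K L, e1, val_unif v b h1 h2] at e2
  rw [← e2, ← pow_mul, ← WithZero.exp_nsmul] at heq
  have ht : t ≠ 0 := by
    rintro rfl
    rw [zero_pow hd.ne'] at heq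
    exact WithZero.exp_ne_zero heq
  obtain ⟨s, rfl⟩ : ∃ s : ℤ, t = WithZero.exp s := ⟨WithZero.log t, (WithZero.exp_log ht).symm⟩
  rw [← WithZero.exp_nsmul, WithZero.exp_inj] at heq
  rw [← Int.natCast_dvd_natCast]
  refine ⟨-s, ?_⟩
  simp only [nsmul_eq_mul] at heq
  push_cast at heq ⊢
  linarith

end Pool.Agent.TH377.Hyp
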