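import Pool.Agent.TH377.Dyn.Rat
import Pool.Agent.TH377.Hyp.NF

/-!
# Irreducibility and smoothness
-/

set_option autoImplicit false
set_option maxHeartbeats 400000

namespace Pool.Agent.TH377.Hyp

open Polynomial NumberField IsDedekindDomain Pool.Agent.TH377.Dyn

universe u v

/-- irreducible over `K` -/
theorem irr_of_mod {K : Type u} [Field K] [NumberField K] (v : HeightOneSpectrum (𝓞 K))
    (F : (𝓞 K)[X]) (hd : 0 < F.natDegree) (hlc : F.leadingCoeff ∉ v.asIdeal)
    (hirr : Irreducible (F.map (Ideal.Quotient.mk v.asIdeal))) :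
    Irreducible (F.map (algebraMap (𝓞 K) K)) := by
  have hinj : Function.Injective (algebraMap (𝓞 K) K) :=
    FaithfulSMul.algebraMap_injective (𝓞 K) K
  set f := F.map (algebraMap (𝓞 K) K) with hf
  have hdeg : f.natDegree = F.natDegree := natDegree_map_eq_of_injective hinj F
  have hf0 : f ≠ 0 := by
    intro h
    rw [h, natDegree_zero] at hdeg
    omega
  have hfu : ¬ IsUnit f := by
    intro h
    have := natDegree_eq_zero_of_isUnit h
    omega
  obtain ⟨g, hg, hgf⟩ := WfDvdMonoid.exists_irreducible_factor hfu hf0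
  have hfact : Fact (Irreducible g) := ⟨hg⟩
  have hg0 : g ≠ 0 := hg.ne_zero
  have hfd : FiniteDimensional K (AdjoinRoot g) := (AdjoinRoot.powerBasis hg0).finite
  have hNF : NumberField (AdjoinRoot g) := NumberField.of_module_finite K _
  have hfin : Module.finrank K (AdjoinRoot g) = g.natDegree := by
    rw [(AdjoinRoot.powerBasis hg0).finrank, AdjoinRoot.powerBasis_dim hg0]
  have hroot : (F.map (algebraMap (𝓞 K) (AdjoinRoot g))).eval (AdjoinRoot.root g) = 0 := by
    rw [eval_map_algebraMap]
    have h1 : aeval (AdjoinRoot.root g) f = 0 := by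
      obtain ⟨h, hh⟩ := hgf
      rw [hh, map_mul]
      have h2 : aeval (AdjoinRoot.root g) g = 0 := AdjoinRoot.eval₂_root g
      rw [h2, zero_mul]
    rwa [hf, aeval_map_algebraMap] at h1
  have hdvd : F.natDegree ∣ g.natDegree := by
    by_contra h
    rw [← hfin] at h
    exact no_root v F hlc hirr h _ hroot
  have hgd : 0 < g.natDegree := hg.natDegree_pos
  have hle := Nat.le_of_dvd hgd hdvd
  obtain ⟨h, hh⟩ := hgf
  have hh0 : h ≠ 0 := by
    rintro rfl
    rw [mul_zero] at hh
    exact hf0 hh
  have hh1 : h.natDegree = 0 := by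
    have h1 : f.natDegree = g.natDegree + h.natDegree := by
      rw [hh, natDegree_mul hg0 hh0]
    omega
  have hhu : IsUnit h := by
    rw [isUnit_iff_degree_eq_zero, degree_eq_natDegree hh0, hh1]
    rfl
  rw [hh]
  exact (irreducible_mul_isUnit hhu).2 hg

section smooth

variable {k : Type u} [Field k] [CharZero k]

/-- the first partial derivative of a binary form -/
noncomputable def d0 (F : k[X]) (d : ℕ) (x y : k) : k :=
  ∑ i : Fin (d + 1), F.coeff i * (((i : ℕ) * x ^ ((i : ℕ) - 1)) * y ^ (d - i))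

/-- the second partial derivative of a binary form -/
noncomputable def d1 (F : k[X]) (d : ℕ) (x y : k) : k :=
  ∑ i : Fin (d + 1), F.coeff i * (x ^ (i : ℕ) * (((d - i : ℕ) : k) * y ^ (d - i - 1)))

omit [CharZero k] in
lemma euler (F : k[X]) (d : ℕ) (x y : k) : x * d0 F d x y + y * d1 F d x y = d * bin F d x y := by
  rw [d0, d1, bin, Finset.mul_sum, Finset.mul_sum, Finset.mul_sum, ← Finset.sum_add_distrib]
  refine Finset.sum_congr rfl fun i _ => ?_
  have hi : (i : ℕ) ≤ d := by
    have := i.2
    omega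
  have e1 : x * (((i : ℕ) : k) * x ^ ((i : ℕ) - 1)) = ((i : ℕ) : k) * x ^ (i : ℕ) := by
    by_cases h : (i : ℕ) = 0
    · rw [h]
      simp
    · have : x ^ (i : ℕ) = x * x ^ ((i : ℕ) - 1) := by
        rw [← pow_succ']
        congr 1
        omega
      rw [this]
      ring
  have e2 : y * (((d - i : ℕ) : k) * y ^ (d - i - 1)) = ((d - i : ℕ) : k) * y ^ (d - (i : ℕ)) := by
    by_cases h : d - (i : ℕ) = 0
    · rw [h]
      simp
    · have : y ^ (d - (i : ℕ)) = y * y ^ (d - (i : ℕ) - 1) := by
        rw [← pow_succ']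
        congr 1
        omega
      rw [this]
      ring
  have e3 : (d : k) = ((i : ℕ) : k) + ((d - i : ℕ) : k) := by
    rw [← Nat.cast_add]
    congr 1
    omega
  calc x * (F.coeff i * ((((i : ℕ) : k) * x ^ ((i : ℕ) - 1)) * y ^ (d - (i : ℕ)))) +
        y * (F.coeff i * (x ^ (i : ℕ) * (((d - i : ℕ) : k) * y ^ (d - i - 1))))
      = F.coeff i * ((x * (((i : ℕ) : k) * x ^ ((i : ℕ) - 1))) * y ^ (d - (i : ℕ))) +
        F.coeff i * (x ^ (i : ℕ) * (y * (((d - i : ℕ) : k) * y ^ (d - i - 1)))) := by ring
    _ = d * (F.coeff i * (x ^ (i : ℕ) * y ^ (d - (i : ℕ)))) := by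
      rw [e1, e2, e3]
      ring

/-- a separable binary form is smooth -/
theorem smooth_bin (F : k[X]) (d : ℕ) (hd : 1 ≤ d) (hF : F.natDegree = d) (hs : F.Separable)
    (x y : k) (hxy : x ≠ 0 ∨ y ≠ 0) : d0 F d x y ≠ 0 ∨ d1 F d x y ≠ 0 := by
  by_contra h
  rw [not_or, not_not, not_not] at h
  obtain ⟨h0, h1⟩ := h
  have h2 : bin F d x y = 0 := by
    have := euler F d x y
    rw [h0, h1, mul_zero, mul_zero, add_zero] at this
    rcases mul_eq_zero.1 this.symm with h3 | h3
    · exact absurd (Nat.cast_eq_zero.1 h3) (by omega)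
    · exact h3
  by_cases hy : y = 0
  · have hx : x ≠ 0 := by
      rcases hxy with h3 | h3
      · exact h3
      · exact absurd hy h3
    rw [bin, Fin.sum_univ_castSucc, Finset.sum_eq_zero] at h2
    · simp only [Fin.val_last, tsub_self, pow_zero, mul_one, zero_add] at h2
      rcases mul_eq_zero.1 h2 with h3 | h3
      · rw [← hF] at h3
        have h4 : F = 0 := leadingCoeff_eq_zero.1 h3
        rw [h4, natDegree_zero] at hF
        omega
      · exact pow_ne_zero _ hx h3
    · intro i _
      have h3 : d - ((Fin.castSucc i : Fin (d + 1)) : ℕ) ≠ 0 := by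
        have := i.2
        rw [Fin.val_castSucc]
        omega
      rw [hy, zero_pow h3, mul_zero, mul_zero]
  · rw [bin_eq F d hF x y hy] at h2
    have h3 : F.eval (x / y) = 0 := by
      rcases mul_eq_zero.1 h2 with h3 | h3
      · exact absurd h3 (pow_ne_zero _ hy)
      · exact h3
    have h4 : y ^ (d - 1) * F.derivative.eval (x / y) = d0 F d x y := by
      rw [d0, derivative_eval, sum_over_range' _ (by simp) (d + 1) (by omega),
        Finset.sum_range, Finset.mul_sum]
      refine Finset.sum_congr rfl fun i _ => ?_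
      by_cases hi : (i : ℕ) = 0
      · rw [hi]
        simp
      · have hi2 := i.2
        have e1 : y ^ (d - 1) = y ^ ((i : ℕ) - 1) * y ^ (d - (i : ℕ)) := by
          rw [← pow_add]
          congr 1
          omega
        have hyi : y ^ ((i : ℕ) - 1) ≠ 0 := pow_ne_zero _ hy
        rw [e1, div_pow]
        field_simp
    have h5 : F.derivative.eval (x / y) = 0 := by
      rw [h0] at h4
      rcases mul_eq_zero.1 h4 with h5 | h5
      · exact absurd h5 (pow_ne_zero _ hy)
      · exact h5
    obtain ⟨A, B, hAB⟩ := hs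
    have h6 := congrArg (Polynomial.eval (x / y)) hAB
    rw [eval_add, eval_mul, eval_mul, h3, h5, mul_zero, mul_zero, add_zero, eval_one] at h6
    exact zero_ne_one h6

end smooth

end Pool.Agent.TH377.Hyp
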